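import Pool.Agent.H97.Reg.Events

set_option autoImplicit false

/-!
# Norm regularization of random matrices with bounded entries: logarithmic dependence

Let `A` be an `n × n` matrix with independent identically distributed entries of mean zero and
variance one and with `|A i j| ≤ K √n`. We prove that for every `ε` in `(0, 1/6]`, with probability
at least `1 - 7 exp (-ε n / 12)`, one can replace the entries in an `ε n × ε n` submatrix by zero
such that the operator norm becomes at most `c K log (1 / ε) √n`, with an absolute constant `c`.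

Outline. It suffices to show that, with large probability, one can remove `ε n` columns such that
the norm of the remaining columns has this order (and to apply this to the transposed matrix). Let
`2 ^ m₀` be of the order of `L = log (1 / ε)`. Removing few columns one achieves that for every row
the sum of `min (A i j ^ 2 / n) (1 / 2 ^ m₀)` is at most `40`, and the same for the columns that are
kept (`Rows.lean`). The entries with `A i j ^ 2 > n / 2 ^ m₀` then form a matrix with at most
`40 · 2 ^ m₀` nonzero entries in every row and column, whose norm is bounded by the Schur test.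
For the small entries, after centring, a self-normalised exponential moment estimate
(`Small.lean`) and a union bound give a bound for the images of all sign vectors supported on at
most `n / 2 ^ l` columns, for all `l`; the little Grothendieck inequality (`Groth.lean`) and a
greedy selection produce, for each `l`, a set of at most `n / 2 ^ (l + 1)` columns such that the
norm of the others is at most a constant times `√(n (l + 1))`. Summing the squares over the
`O(L)` scales gives `O(L √n)`.
-/

open Real MeasureTheory ProbabilityTheory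

namespace Pool.Agent.Results.MP_d89a53_pr.LogDependence

open Pool.Agent.H97.Reg

/-- The matrix `A` with the entries `A i j`, `i ∈ I` and `j ∈ J`, replaced by zero. -/
def zeroOut {n : ℕ} (I J : Finset (Fin n)) (A : Matrix (Fin n) (Fin n) ℝ) :
    Matrix (Fin n) (Fin n) ℝ :=
  Matrix.of fun i j => if i ∈ I ∧ j ∈ J then 0 else A i j

/-- The operator norm of a matrix with respect to the Euclidean norm. -/
noncomputable def opNorm {n : ℕ} (A : Matrix (Fin n) (Fin n) ℝ) : ℝ :=
  ‖Matrix.toEuclideanCLM (n := Fin n) (𝕜 := ℝ) A‖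

/-- `A` is a random `n × n` matrix with independent identically distributed entries of mean zero
and variance one, bounded by `K √n`. -/
structure BoundedIID {Ω : Type*} [MeasurableSpace Ω] (P : Measure Ω) (n : ℕ) (K : ℝ)
    (A : Ω → Matrix (Fin n) (Fin n) ℝ) : Prop where
  prob : IsProbabilityMeasure P
  indep : iIndepFun (fun (p : Fin n × Fin n) ω => A ω p.1 p.2) P
  ident : ∀ i j k l, IdentDistrib (fun ω => A ω i j) (fun ω => A ω k l) P P
  mean : ∀ i j, ∫ ω, A ω i j ∂P = 0
  var : ∀ i j, ∫ ω, A ω i j ^ 2 ∂P = 1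
  bdd : ∀ i j, ∀ᵐ ω ∂P, |A ω i j| ≤ K * √n

lemma opNorm_le {n : ℕ} (A : Matrix (Fin n) (Fin n) ℝ) {T : ℝ} (hT : 0 ≤ T)
    (h : ∀ x : Fin n → ℝ, q A x ≤ T ^ 2 * ∑ j, x j ^ 2) : opNorm A ≤ T := by
  refine ContinuousLinearMap.opNorm_le_bound _ hT fun x => ?_
  rw [← sq_le_sq₀ (norm_nonneg _) (by positivity), mul_pow, EuclideanSpace.norm_sq_eq,
    EuclideanSpace.norm_sq_eq]
  simp only [Matrix.ofLp_toEuclideanCLM, norm_eq_abs, sq_abs]
  exact h x

lemma exists_m0 {L : ℝ} (hL : 1 < L) : ∃ m0 : ℕ, L ≤ 2 ^ m0 ∧ (2 : ℝ) ^ m0 ≤ 2 * L := by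
  classical
  have hex : ∃ m : ℕ, L ≤ 2 ^ m := by
    obtain ⟨m, hm⟩ := pow_unbounded_of_one_lt L (by norm_num : (1 : ℝ) < 2)
    exact ⟨m, hm.le⟩
  refine ⟨Nat.find hex, Nat.find_spec hex, ?_⟩
  rcases Nat.eq_zero_or_pos (Nat.find hex) with h | h
  · rw [h]; linarith
  · have h1 := Nat.find_min hex (show Nat.find hex - 1 < Nat.find hex by omega)
    push Not at h1
    obtain ⟨k, hk⟩ : ∃ k, Nat.find hex = k + 1 := ⟨Nat.find hex - 1, by omega⟩
    rw [hk] at h1 ⊢
    rw [Nat.add_sub_cancel] at h1
    rw [pow_succ]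
    linarith

section Law

variable {ν : Measure ℝ} {n : ℕ}

lemma abs_trunc_le (hn : 1 ≤ n) (m0 : ℕ) (t : ℝ) : |trunc n m0 t| ≤ √n := by
  have hn0 : (0 : ℝ) < n := by exact_mod_cast hn
  unfold trunc
  split_ifs with h
  · apply abs_le_sqrt
    have h1 : t ^ 2 / n ≤ 1 := h.trans (by
      rw [div_le_one (by positivity)]
      exact one_le_pow₀ (by norm_num))
    rwa [div_le_one hn0] at h1
  · simp

lemma mb_bound (hν : IsLaw ν) (hn : 1 ≤ n) (m0 : ℕ) :
    (∫ t, trunc n m0 t ∂ν) ^ 2 * n ≤ 2 ^ m0 := by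
  have := hν.prob
  have hn0 : (0 : ℝ) < n := by exact_mod_cast hn
  have hi : Integrable (trunc n m0) ν := Integrable.of_bound
    (measurable_trunc _ _).aestronglyMeasurable (√n)
    (Filter.Eventually.of_forall fun t => abs_trunc_le hn m0 t)
  set c := √(2 ^ m0 / n) with hc
  have hc2 : c ^ 2 = 2 ^ m0 / n := sq_sqrt (by positivity)
  have hc0 : 0 < c := sqrt_pos.2 (by positivity)
  have h1 : |∫ t, trunc n m0 t ∂ν| ≤ c := by
    have h2 : ∫ t, trunc n m0 t ∂ν = ∫ t, (trunc n m0 t - t) ∂ν := by
      rw [integral_sub hi hν.int1, hν.mean, sub_zero]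
    rw [h2]
    calc |∫ t, (trunc n m0 t - t) ∂ν| ≤ ∫ t, |trunc n m0 t - t| ∂ν := abs_integral_le_integral_abs
      _ ≤ ∫ t, c * t ^ 2 ∂ν := by
          refine integral_mono (hi.sub hν.int1).abs (hν.int2.const_mul c) fun t => ?_
          show |trunc n m0 t - t| ≤ c * t ^ 2
          unfold trunc
          split_ifs with h
          · simp only [sub_self, abs_zero]
            positivity
          · push Not at h
            rw [zero_sub, abs_neg]
            have h3 : 1 ≤ (c * |t|) ^ 2 := by
              rw [mul_pow, hc2, sq_abs]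
              rw [lt_div_iff₀ hn0, div_mul_eq_mul_div, one_mul, div_lt_iff₀ (by positivity)] at h
              rw [div_mul_eq_mul_div, le_div_iff₀ hn0, one_mul]
              linarith
            have h4 : 1 ≤ c * |t| := by
              by_contra hcon
              push Not at hcon
              have h5 : (c * |t|) ^ 2 < 1 := by
                rw [sq_lt_one_iff₀ (by positivity)]
                exact hcon
              linarith
            calc |t| = 1 * |t| := by ring
              _ ≤ (c * |t|) * |t| := by gcongr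
              _ = c * t ^ 2 := by rw [← sq_abs t]; ring
      _ = c := by rw [integral_const_mul, hν.var, mul_one]
  have h2 : (∫ t, trunc n m0 t ∂ν) ^ 2 ≤ c ^ 2 := by
    rw [← sq_abs]
    gcongr
  rw [hc2, le_div_iff₀ hn0] at h2
  exact h2

lemma centred (hν : IsLaw ν) (hn : 1 ≤ n) (m0 : ℕ) :
    ∫ t, (trunc n m0 t - ∫ u, trunc n m0 u ∂ν) ∂ν = 0 ∧
      ∫ t, (trunc n m0 t - ∫ u, trunc n m0 u ∂ν) ^ 2 ∂ν ≤ 1 := by
  have := hν.prob
  have hn0 : (0 : ℝ) < n := by exact_mod_cast hn
  have hi : Integrable (trunc n m0) ν := Integrable.of_bound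
    (measurable_trunc _ _).aestronglyMeasurable (√n)
    (Filter.Eventually.of_forall fun t => abs_trunc_le hn m0 t)
  have hi2 : Integrable (fun t => trunc n m0 t ^ 2) ν := Integrable.of_bound
    ((measurable_trunc _ _).pow_const 2).aestronglyMeasurable ((√n) ^ 2)
    (Filter.Eventually.of_forall fun t => by
      rw [norm_eq_abs, abs_pow]
      have := abs_trunc_le hn m0 t
      gcongr)
  set mb := ∫ u, trunc n m0 u ∂ν with hmb
  constructor
  · rw [integral_sub hi (integrable_const _)]
    simp [hmb]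
  · have h1 : ∀ t, (trunc n m0 t - mb) ^ 2 = trunc n m0 t ^ 2 + (-2 * mb) * trunc n m0 t
        + mb ^ 2 := fun t => by ring
    simp_rw [h1]
    have hi3 : Integrable (fun t => (-2 * mb) * trunc n m0 t) ν := hi.const_mul _
    have hi4 : Integrable (fun t => trunc n m0 t ^ 2 + (-2 * mb) * trunc n m0 t) ν := hi2.add hi3
    rw [integral_add hi4 (integrable_const _), integral_add hi2 hi3, integral_const_mul, ← hmb]
    simp only [integral_const, probReal_univ, smul_eq_mul, one_mul]
    have h2 : ∫ t, trunc n m0 t ^ 2 ∂ν ≤ ∫ t, t ^ 2 ∂ν := by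
      refine integral_mono hi2 hν.int2 fun t => ?_
      show trunc n m0 t ^ 2 ≤ t ^ 2
      unfold trunc
      split_ifs
      · exact le_rfl
      · simp only [ne_eq, OfNat.ofNat_ne_zero, not_false_eq_true, zero_pow]
        positivity
    rw [hν.var] at h2
    nlinarith [sq_nonneg mb]

end Law

section Model

variable {Ω : Type*} [MeasurableSpace Ω] {P : Measure Ω} {n : ℕ} {K : ℝ}
  {A : Ω → Matrix (Fin n) (Fin n) ℝ}

lemma isLaw (h : BoundedIID P n K A) (i : Fin n) : IsLaw (P.map (fun ω => A ω i i)) := by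
  have := h.prob
  have hm : AEMeasurable (fun ω => A ω i i) P := (h.ident i i i i).aemeasurable_fst
  have hb := h.bdd i i
  have hi1 : Integrable (fun ω => A ω i i) P := Integrable.of_bound hm.aestronglyMeasurable
    (K * √n) (by simpa using hb)
  have hi2 : Integrable (fun ω => A ω i i ^ 2) P := Integrable.of_bound
    (hm.pow_const 2).aestronglyMeasurable ((K * √n) ^ 2) (by
      filter_upwards [hb] with ω hω
      rw [norm_eq_abs, abs_pow]
      gcongr)
  refine ⟨Measure.isProbabilityMeasure_map hm, ?_, ?_, ?_, ?_⟩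
  · rw [integrable_map_measure (by fun_prop) hm]
    exact hi1
  · rw [integral_map hm (by fun_prop)]
    exact h.mean i i
  · rw [integrable_map_measure (by fun_prop) hm]
    exact hi2
  · rw [integral_map hm (by fun_prop)]
    exact h.var i i

lemma law_of_indep (h : BoundedIID P n K A) (i : Fin n) (B : Ω → Fin n → Fin n → ℝ)
    (hB : iIndepFun (fun (p : Fin n × Fin n) ω => B ω p.1 p.2) P)
    (hid : ∀ k l, IdentDistrib (fun ω => B ω k l) (fun ω => A ω i i) P P) :
    AEMeasurable B P ∧ P.map B = muM n (P.map (fun ω => A ω i i)) := by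
  have := h.prob
  have hm : AEMeasurable (fun ω => A ω i i) P := (h.ident i i i i).aemeasurable_fst
  have hp : IsProbabilityMeasure (P.map (fun ω => A ω i i)) := Measure.isProbabilityMeasure_map hm
  have hmB : ∀ p : Fin n × Fin n, AEMeasurable (fun ω => B ω p.1 p.2) P := fun p =>
    (hid p.1 p.2).aemeasurable_fst
  have hmm : AEMeasurable (fun ω (p : Fin n × Fin n) => B ω p.1 p.2) P := aemeasurable_pi_iff.2 hmB
  have h1 := hB.map_fun_eq_infinitePi_map₀' hmB
  have h2 : (fun p : Fin n × Fin n => P.map (fun ω => B ω p.1 p.2)) =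
      fun _ => P.map (fun ω => A ω i i) := by
    funext p
    exact (hid p.1 p.2).map_eq
  rw [h2] at h1
  have h3 : B = (MeasurableEquiv.curry (Fin n) (Fin n) ℝ) ∘ (fun ω (p : Fin n × Fin n) =>
      B ω p.1 p.2) := by
    funext ω k l
    rfl
  constructor
  · rw [h3]
    exact (MeasurableEquiv.curry (Fin n) (Fin n) ℝ).measurable.comp_aemeasurable hmm
  · rw [h3, ← AEMeasurable.map_map_of_aemeasurable
      (MeasurableEquiv.curry (Fin n) (Fin n) ℝ).measurable.aemeasurable hmm, h1]
    exact Measure.infinitePi_map_curry (fun (_ : Fin n) (_ : Fin n) => P.map (fun ω => A ω i i))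

end Model

/-- **Logarithmic dependence on `ε` under the boundedness assumption.** There is an absolute
constant `c` such that for all `K ≥ 1`, all `n`, all `ε ∈ (0, 1/6]` and all random matrices `A` with
independent identically distributed entries of mean zero and variance one with `|A i j| ≤ K √n`,
with probability at least `1 - 7 exp (-ε n / 12)` one can zero an `ε n × ε n` submatrix of `A` such
that the operator norm of the resulting matrix is at most `c K log (1 / ε) √n`. -/
theorem result : ∃ c : ℝ, ∀ K : ℝ, 1 ≤ K → ∀ (n : ℕ) (ε : ℝ), 0 < ε → ε ≤ 1 / 6 →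
    ∀ {Ω : Type*} [MeasurableSpace Ω] (P : Measure Ω) (A : Ω → Matrix (Fin n) (Fin n) ℝ),
      BoundedIID P n K A →
      1 - ENNReal.ofReal (7 * exp (-(ε * n) / 12)) ≤
        P {ω | ∃ I J : Finset (Fin n), (I.card : ℝ) ≤ ε * n ∧ (J.card : ℝ) ≤ ε * n ∧
          opNorm (zeroOut I J (A ω)) ≤ c * K * log (ε⁻¹) * √n} := by
  refine ⟨10000, ?_⟩
  intro K hK n ε hε hε6 Ω _ P A hA
  have hprob := hA.prob
  rcases lt_or_ge (ε * n) 1 with hεn | hεn
  · have h1 : (1 : ℝ) ≤ 7 * exp (-(ε * n) / 12) := by
      have := add_one_le_exp (-(ε * n) / 12)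
      linarith
    have h2 : (1 : ENNReal) ≤ ENNReal.ofReal (7 * exp (-(ε * n) / 12)) := by
      rw [← ENNReal.ofReal_one]
      exact ENNReal.ofReal_le_ofReal h1
    rw [tsub_eq_zero_of_le h2]
    exact zero_le
  have hn : 1 ≤ n := by
    rcases Nat.eq_zero_or_pos n with h | h
    · subst h; simp at hεn; linarith
    · exact h
  have hn0 : (0 : ℝ) < n := by exact_mod_cast hn
  set i0 : Fin n := ⟨0, hn⟩ with hi0
  set ν := P.map (fun ω => A ω i0 i0) with hνdef
  have hν : IsLaw ν := isLaw hA i0
  have hνp := hν.prob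
  set L := log (ε⁻¹) with hLdef
  have hL1 : 1.6 < L := by
    have h1 : log 6 ≤ L := by
      rw [hLdef]
      apply log_le_log (by norm_num)
      rw [le_inv_comm₀ (by norm_num) hε]
      linarith
    have h2 : 1.6 < log 6 := by
      rw [show (6 : ℝ) = 2 * 3 by norm_num, log_mul (by norm_num) (by norm_num)]
      have h3 := log_two_gt_d9
      have h4 : 1.0 < log 3 := by
        rw [lt_log_iff_exp_lt (by norm_num)]
        have := exp_one_lt_d9
        norm_num at this ⊢
        linarith
      linarith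
    linarith
  obtain ⟨m0, hm1, hm2⟩ := exists_m0 (show (1 : ℝ) < L by linarith)
  -- upper bound for `L`
  have hLn : L ≤ n := by
    have h1 : ε⁻¹ ≤ n := by
      rw [inv_le_iff_one_le_mul₀ hε]
      linarith
    have h2 : L ≤ log n := log_le_log (by positivity) h1
    have h3 := log_le_sub_one_of_pos hn0
    linarith
  have hm0n : (2 : ℝ) ^ m0 ≤ 2 * n := by linarith
  -- number of scales
  obtain ⟨M, hM1, hM2⟩ := exists_m0 (show (1 : ℝ) < 2 / ε by
    rw [lt_div_iff₀ hε]; linarith)
  have hM3 : (n : ℝ) / 2 ^ M ≤ ε * n / 2 := by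
    rw [div_le_iff₀ (by positivity)]
    have h1 : ε * n / 2 * (2 / ε) ≤ ε * n / 2 * 2 ^ M := by gcongr
    have h2 : ε * n / 2 * (2 / ε) = n := by field_simp
    linarith
  have hM4 : ∀ l < M, ε * n / 2 ≤ (n : ℝ) / 2 ^ l := by
    intro l hl
    rw [le_div_iff₀ (by positivity)]
    have h1 : (2 : ℝ) ^ (l + 1) ≤ 2 ^ M := pow_le_pow_right₀ (by norm_num) hl
    have h2 : (2 : ℝ) ^ l ≤ 2 / ε := by
      rw [pow_succ] at h1
      linarith
    have h3 : ε * n / 2 * 2 ^ l ≤ ε * n / 2 * (2 / ε) := by gcongr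
    have h4 : ε * n / 2 * (2 / ε) = n := by field_simp
    linarith
  have hML : (M : ℝ) ≤ 4 * L := by
    have h1 : (M : ℝ) * log 2 ≤ log 4 + L := by
      have h2 := log_le_log (by positivity) hM2
      rw [log_pow] at h2
      have h3 : (2 : ℝ) * (2 / ε) = 4 * ε⁻¹ := by ring
      rw [h3, log_mul (by norm_num) (by positivity)] at h2
      exact h2
    have h2 : log 4 = 2 * log 2 := by
      rw [show (4 : ℝ) = 2 ^ 2 by norm_num, log_pow]; norm_num
    have h3 := log_two_gt_d9
    have h4 := log_two_lt_d9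
    rw [h2] at h1
    nlinarith
  set mb := ∫ t, trunc n m0 t ∂ν with hmbdef
  have hmb := mb_bound hν hn m0
  obtain ⟨hc1, hc2⟩ := centred hν hn m0
  rw [← hmbdef] at hmb hc1 hc2
  have hbnd : ∀ t, |trunc n m0 t - mb| ≤ √n + |mb| := fun t =>
    (abs_sub _ _).trans (by gcongr; exact abs_trunc_le hn m0 t)
  -- the laws of `A` and of its transpose
  obtain ⟨mA, lA⟩ := law_of_indep hA i0 (fun ω i j => A ω i j) hA.indep
    (fun k l => hA.ident k l i0 i0)
  obtain ⟨mT, lT⟩ := law_of_indep hA i0 (fun ω i j => A ω j i)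
    (hA.indep.precomp (g := Prod.swap) Prod.swap_injective) (fun k l => hA.ident l k i0 i0)
  have b1 := measure_Bad1 hν hn hε hε6 m0 n (by rw [one_div]; exact hm1)
  have b2 := measure_Bad2 (ν := ν) hn hbnd hc1 hc2 hmb hm0n hεn hM4
  have p1 : P ((fun ω i j => A ω i j) ⁻¹' (Bad1 n ε m0 n)) ≤
      ENNReal.ofReal (exp (-(ε * n) / 12)) := by
    refine (Measure.le_map_apply mA _).trans ?_
    rw [lA]; exact b1
  have p2 : P ((fun ω i j => A ω j i) ⁻¹' (Bad1 n ε m0 n)) ≤
      ENNReal.ofReal (exp (-(ε * n) / 12)) := by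
    refine (Measure.le_map_apply mT _).trans ?_
    rw [lT]; exact b1
  have p3 : P ((fun ω i j => A ω i j) ⁻¹' (Bad2 n m0 M mb)) ≤
      ENNReal.ofReal (2 * exp (-(ε * n) / 12)) := by
    refine (Measure.le_map_apply mA _).trans ?_
    rw [lA]; exact b2
  have p4 : P ((fun ω i j => A ω j i) ⁻¹' (Bad2 n m0 M mb)) ≤
      ENNReal.ofReal (2 * exp (-(ε * n) / 12)) := by
    refine (Measure.le_map_apply mT _).trans ?_
    rw [lT]; exact b2
  have p5 : P {ω | ¬ ∀ i j, |A ω i j| ≤ K * √n} = 0 := by
    have : ∀ᵐ ω ∂P, ∀ i j, |A ω i j| ≤ K * √n :=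
      ae_all_iff.2 fun i => ae_all_iff.2 fun j => hA.bdd i j
    exact this
  set good : Set Ω := {ω | ∃ I J : Finset (Fin n), (I.card : ℝ) ≤ ε * n ∧ (J.card : ℝ) ≤ ε * n ∧
    opNorm (zeroOut I J (A ω)) ≤ 10000 * K * L * √n} with hgood
  have hcover : goodᶜ ⊆ ((fun ω i j => A ω i j) ⁻¹' (Bad1 n ε m0 n)) ∪
      ((fun ω i j => A ω j i) ⁻¹' (Bad1 n ε m0 n)) ∪
      ((fun ω i j => A ω i j) ⁻¹' (Bad2 n m0 M mb)) ∪
      ((fun ω i j => A ω j i) ⁻¹' (Bad2 n m0 M mb)) ∪ {ω | ¬ ∀ i j, |A ω i j| ≤ K * √n} := by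
    intro ω hω
    by_contra hcon
    simp only [Set.mem_union, not_or, Set.mem_preimage, Set.mem_ofPred_eq, not_not] at hcon
    obtain ⟨⟨⟨⟨g1, g2⟩, g3⟩, g4⟩, g5⟩ := hcon
    apply hω
    have g1' : ∏ i, hw n m0 n (fun j => A ω i j) < exp (ε * n / 4) := by
      simp only [Bad1, Set.mem_ofPred_eq, not_le] at g1
      exact g1
    have g2' : ∏ j, hw n m0 n (fun i => A ω i j) < exp (ε * n / 4) := by
      simp only [Bad1, Set.mem_ofPred_eq, not_le] at g2
      exact g2
    have g3' : ∀ l < M, ∀ J : Finset (Fin n), (J.card : ℝ) ≤ n / 2 ^ l → ∀ x, SignVec J x →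
        ∑ i, WW m0 mb (fun j => A ω i j) x ≤ ul n l := by
      intro l hl J hJ x hx
      by_contra hc
      push Not at hc
      exact g3 ⟨l, hl, J, hJ, x, hx, hc⟩
    have g4' : ∀ l < M, ∀ J : Finset (Fin n), (J.card : ℝ) ≤ n / 2 ^ l → ∀ x, SignVec J x →
        ∑ i, WW m0 mb (fun j => A ω j i) x ≤ ul n l := by
      intro l hl J hJ x hx
      by_contra hc
      push Not at hc
      exact g4 ⟨l, hl, J, hJ, x, hx, hc⟩
    have g5' : ∀ i j, A ω i j ^ 2 ≤ K ^ 2 * n := by
      intro i j
      rw [← sq_abs]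
      calc |A ω i j| ^ 2 ≤ (K * √n) ^ 2 := by
            have := g5 i j
            gcongr
        _ = K ^ 2 * n := by rw [mul_pow, sq_sqrt hn0.le]
    have hulpos : ∀ l, 0 < ul n l := fun l => by unfold ul; positivity
    have hnN : n ≤ 2 ^ n := Nat.lt_two_pow_self.le
    obtain ⟨J, hJc, hJ⟩ := oneSided hn hK m0 M n hnN (fun i j => A ω i j) g5' g1' g2' hmb
      (ul n) hulpos g3' hM3
    obtain ⟨I, hIc, hI⟩ := oneSided hn hK m0 M n hnN (fun i j => A ω j i) (fun i j => g5' j i)
      g2' g1' hmb (ul n) hulpos g4' hM3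
    refine ⟨I, J, hIc, hJc, ?_⟩
    -- the constant
    set T0 := 3 * (K ^ 2 * n * (40 * 2 ^ m0) ^ 2 + (∑ l ∈ Finset.range M, 192 * 2 ^ l * ul n l / n)
        + n * 2 ^ m0) with hT0
    have hsum : ∑ l ∈ Finset.range M, 192 * 2 ^ l * ul n l / n ≤ 774144 * n * (4 * L) ^ 2 := by
      have h1 : ∀ l ∈ Finset.range M, 192 * 2 ^ l * ul n l / n ≤ 774144 * n * (4 * L) := by
        intro l hl
        have h2 : 192 * 2 ^ l * ul n l / n = 774144 * n * (l + 1) := by
          unfold ul
          field_simp
          ring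
        rw [h2]
        have h3 : (l : ℝ) + 1 ≤ M := by exact_mod_cast Finset.mem_range.1 hl
        have h4 : (l : ℝ) + 1 ≤ 4 * L := h3.trans hML
        gcongr
      calc ∑ l ∈ Finset.range M, 192 * 2 ^ l * ul n l / n
          ≤ ∑ _l ∈ Finset.range M, 774144 * n * (4 * L) := Finset.sum_le_sum h1
        _ = M * (774144 * n * (4 * L)) := by rw [Finset.sum_const, Finset.card_range, nsmul_eq_mul]
        _ ≤ (4 * L) * (774144 * n * (4 * L)) := by gcongr
        _ = _ := by ring
    have hT0le : 2 * T0 ≤ (10000 * K * L * √n) ^ 2 := by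
      have e1 : K ^ 2 * n * (40 * 2 ^ m0) ^ 2 ≤ K ^ 2 * n * (40 * (2 * L)) ^ 2 := by gcongr
      have e2 : (n : ℝ) * 2 ^ m0 ≤ n * (2 * L) := by gcongr
      have e3 : (10000 * K * L * √n) ^ 2 = 100000000 * (K ^ 2 * (n * L ^ 2)) := by
        rw [mul_pow, mul_pow, mul_pow, sq_sqrt hn0.le]; ring
      have e4 : K ^ 2 * n * (40 * (2 * L)) ^ 2 = 6400 * (K ^ 2 * (n * L ^ 2)) := by ring
      have e5 : 774144 * n * (4 * L) ^ 2 = 12386304 * (n * L ^ 2) := by ring
      have hK2 : 1 ≤ K ^ 2 := one_le_pow₀ hK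
      have e6 : 0 ≤ n * L ^ 2 := by positivity
      have e7 : n * L ^ 2 ≤ K ^ 2 * (n * L ^ 2) := le_mul_of_one_le_left e6 hK2
      have e8 : n * (2 * L) ≤ 2 * (n * L ^ 2) := by
        have : L ≤ L ^ 2 := by nlinarith
        nlinarith
      rw [hT0, e3]
      linarith
    have hT0nn : 0 ≤ T0 := by
      rw [hT0]
      have : 0 ≤ ∑ l ∈ Finset.range M, 192 * 2 ^ l * ul n l / n :=
        Finset.sum_nonneg fun l _ => by
          have := hulpos l
          positivity
      positivity
    refine opNorm_le _ (by positivity) fun x => ?_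
    have h6 := twoSided (fun i j => A ω i j) hT0nn I J hJ hI x
    refine le_trans h6 ?_
    have : 0 ≤ ∑ j, x j ^ 2 := Finset.sum_nonneg fun _ _ => sq_nonneg _
    gcongr
  have hbad : P goodᶜ ≤ ENNReal.ofReal (7 * exp (-(ε * n) / 12)) := by
    set e := exp (-(ε * n) / 12) with he
    have he0 : 0 < e := exp_pos _
    calc P goodᶜ ≤ _ := measure_mono hcover
      _ ≤ ENNReal.ofReal e + ENNReal.ofReal e + ENNReal.ofReal (2 * e) + ENNReal.ofReal (2 * e)
          + 0 := by
          refine (measure_union_le _ _).trans ?_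
          gcongr
          · refine (measure_union_le _ _).trans ?_
            gcongr
            refine (measure_union_le _ _).trans ?_
            gcongr
            refine (measure_union_le _ _).trans ?_
            gcongr
          · exact p5.le
      _ = ENNReal.ofReal (6 * e) := by
          rw [add_zero, ← ENNReal.ofReal_add he0.le he0.le, ← ENNReal.ofReal_add (by positivity)
            (by positivity), ← ENNReal.ofReal_add (by positivity) (by positivity)]
          congr 1
          ring
      _ ≤ ENNReal.ofReal (7 * e) := by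
          apply ENNReal.ofReal_le_ofReal
          linarith
  rw [tsub_le_iff_right]
  calc (1 : ENNReal) = P Set.univ := measure_univ.symm
    _ = P (good ∪ goodᶜ) := by rw [Set.union_compl_self]
    _ ≤ P good + P goodᶜ := measure_union_le _ _
    _ ≤ _ := by gcongr

end Pool.Agent.Results.MP_d89a53_pr.LogDependence
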